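import Pool.Agent.H439.TH.Main

/-!
# The Tauberian averages of almost all twists of a fibration, at all scales

Let `f : 𝒳 → 𝒴` be a fibration over a number field `K` and `a_v = 𝔄*_v(𝒳)` (`0` for `v ∈ R`), a bounded
function on the primes of `K` by the theorems of Deligne.  The conjecture says that
`T⁻¹ ∑_{q_v ≤ T} a_v log q_v` tends to `-rank(P_X(K(𝒴)) / τB(K))`.  For a quadratic character `χ` of `ℚ`,
the character of `ℚ(√d)`, the sum of the `a_v χ(q_v) log q_v` is, up to `O(√T log T)`, the sum of the
question for `f` over `K(√d)` minus the sum for `f` over `K`; in the same way the Dirichlet characters `χ`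
of order `m` occur for `f` over the cyclic extensions of degree `m` of `K`.  The conjecture for `f` over
these extensions of `K` predicts that `T⁻¹ ∑_{q_v ≤ T} a_v χ(q_v) log q_v` tends to zero for all but
finitely many Dirichlet characters `χ`, as the group `P_X / τB` has finite rank over the algebraic closure
(Lang–Néron).  Nothing seems to be known about these sums for a given `f`, beyond the trivial bound.

The theorem shows a saving of a power for almost all twists, unconditionally, and uniformly in the
fibration (the constant `R₀` depends on `δ` and the degree of `K` only): for all but `R^δ` members of any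
family of twists by Dirichlet characters modulo `q ≤ R` and `q_v^{-it}`, `|t| ≤ R`, one has

`|T⁻¹ ∑_{q_v ≤ T} a_v χ(q_v) q_v^{-it} log q_v| ≤ (T^{-δ/1600} + R^{-δ/64}) sup |a_v|`

for ALL `T` with `(log R)^{400/δ} ≤ T ≤ exp(R^{δ/16})` at the same time.  The family may have about `R³`
members.  As the `a_v` are arbitrary, they may imitate the complex conjugate of one character up to some
`T`, of another one up to a much larger `T'`, and so on, so that exceptions are unavoidable, and their
number is unbounded as the range of the `T` increases.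

Proof.  For `T ≥ R^41` the large sieve inequality with Selberg's weights bounds the sum over the family of
the squares of the sums up to `T`, for the `T` in a fine geometric sequence.  For smaller `T` the sums over
dyadic blocks of primes, cut at the points of a fine grid, are raised to a high power, so that the
resulting Dirichlet polynomials are longer than `R⁵`; the mean values of these powers are bounded by a
large sieve inequality of the Halász–Montgomery type.
-/

set_option autoImplicit false

namespace Pool.Agent.Results.MP_1a0ddd_nt.TwistsAllScales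

open NumberField IsDedekindDomain

/-- The sum of `a_v χ(q_v) q_v^{-it} log q_v` over the primes `v` of `K` with norm `q_v ≤ T`. -/
noncomputable def twistedSum {K : Type} [Field K] [NumberField K]
    (a : HeightOneSpectrum (𝓞 K) → ℂ) {q : ℕ} (χ : DirichletCharacter ℂ q) (t T : ℝ) : ℂ :=
  ∑ᶠ (v : HeightOneSpectrum (𝓞 K)) (_ : (Ideal.absNorm v.asIdeal : ℝ) ≤ T),
    a v * χ (Ideal.absNorm v.asIdeal : ℕ) *
      ((Ideal.absNorm v.asIdeal : ℕ) : ℂ) ^ (-(t * Complex.I)) *
      (Real.log (Ideal.absNorm v.asIdeal : ℕ) : ℂ)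

/-- The Dirichlet characters `χ` modulo `q` and `ξ` modulo `r` agree on the integers coprime to `q r`; in
other words they are induced by the same primitive character. -/
def SamePrimitive {q r : ℕ} (χ : DirichletCharacter ℂ q) (ξ : DirichletCharacter ℂ r) : Prop :=
  ∀ n : ℕ, n.Coprime (q * r) → χ n = ξ n

/-- A finite family of Dirichlet characters `χ_j` modulo `q_j`, `1 ≤ q_j ≤ R`, and of heights `t_j`,
`|t_j| ≤ R`, such that the heights of two members whose characters are induced by the same primitive
character differ by at least one.  For example all primitive characters modulo all `q ≤ R`, with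
arbitrary heights, one for each character, or each of them with all integers `|t| ≤ R`. -/
structure IsFamily {J : ℕ} (q : Fin J → ℕ) (χ : ∀ j, DirichletCharacter ℂ (q j)) (t : Fin J → ℝ)
    (R : ℝ) : Prop where
  pos : ∀ j, 0 < q j
  le : ∀ j, (q j : ℝ) ≤ R
  abs_le : ∀ j, |t j| ≤ R
  sep : ∀ j k, j ≠ k → SamePrimitive (χ j) (χ k) → 1 ≤ |t j - t k|

/-- **The Tauberian averages of almost all twists, at all scales.**  For all `0 < δ ≤ 1` and `n ≥ 1` there
is an `R₀` with the following property.  Let `K` be a number field of degree `n`, let `a` be any function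
on the primes of `K` with `|a_v| ≤ M`, for example `a_v = 𝔄*_v` for a fibration over `K`, let `R ≥ R₀`, and
consider a family of characters and heights bounded by `R`.  For all but at most `R^δ` members `(χ, t)` of
the family

`|∑_{q_v ≤ T} a_v χ(q_v) q_v^{-it} log q_v| ≤ M T (T^{-δ/1600} + R^{-δ/64})`

for all real numbers `T` with `(log R)^{400/δ} ≤ T ≤ exp(R^{δ/16})`. -/
theorem result (δ : ℝ) (hδ : 0 < δ) (hδ1 : δ ≤ 1) (n : ℕ) :
    ∃ R₀ : ℝ, ∀ (K : Type) [Field K] [NumberField K], Module.finrank ℚ K = n →
      ∀ (a : HeightOneSpectrum (𝓞 K) → ℂ) (M : ℝ), 0 ≤ M → (∀ v, ‖a v‖ ≤ M) → ∀ R : ℝ, R₀ ≤ R →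
      ∀ (J : ℕ) (q : Fin J → ℕ) (χ : ∀ j, DirichletCharacter ℂ (q j)) (t : Fin J → ℝ),
        IsFamily q χ t R →
        ∃ E : Finset (Fin J), (E.card : ℝ) ≤ R ^ δ ∧ ∀ j, j ∉ E → ∀ T : ℝ,
          (Real.log R) ^ (400 / δ) ≤ T → T ≤ Real.exp (R ^ (δ / 16)) →
          ‖twistedSum a (χ j) (t j) T‖ ≤ M * T * (T ^ (-(δ / 1600)) + R ^ (-(δ / 64))) := by
  rcases Nat.eq_zero_or_pos n with hn | hn
  · refine ⟨0, ?_⟩
    intro K _ _ hK
    have : 0 < Module.finrank ℚ K := Module.finrank_pos
    omega
  obtain ⟨ℓ₀, hℓ₀⟩ := Filter.eventually_atTop.1 (Pool.Agent.H439.TH.all_scales_field hδ hδ1 n hn)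
  refine ⟨Real.exp (max ℓ₀ 2), ?_⟩
  intro K _ _ hK a M hMnn hM R hR J q χ t hfam
  have hR0 : 0 < R := lt_of_lt_of_le (Real.exp_pos _) hR
  set ℓ : ℝ := Real.log R with hℓ
  have hRℓ : Real.exp ℓ = R := Real.exp_log hR0
  have hℓ1 : max ℓ₀ 2 ≤ ℓ := by
    rw [hℓ, Real.le_log_iff_exp_le hR0]
    exact hR
  have hℓ2 : 2 ≤ ℓ := (le_max_right _ _).trans hℓ1
  have hℓpos : 0 < ℓ := by linarith
  have hsp : Pool.Agent.H439.LS.Spaced q (fun j => χ j) t :=
    ⟨hfam.pos, fun j k hjk hA => hfam.sep j k hjk hA⟩
  -- normalisation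
  have hM0 : ∀ v, a v = 0 ∨ 0 < M := by
    intro v
    rcases eq_or_ne (a v) 0 with h | h
    · exact Or.inl h
    · exact Or.inr (lt_of_lt_of_le (norm_pos_iff.2 h) (hM v))
  set b : HeightOneSpectrum (𝓞 K) → ℂ := fun v => a v / (M : ℂ) with hb
  have hb1 : ∀ v, ‖b v‖ ≤ 1 := by
    intro v
    simp only [hb]
    rw [norm_div, Complex.norm_real]
    rcases hM0 v with h | h
    · rw [h, norm_zero, zero_div]; exact zero_le_one
    · rw [Real.norm_of_nonneg h.le, div_le_one h]
      exact hM v
  have hab : ∀ v, a v = (M : ℂ) * b v := by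
    intro v
    simp only [hb]
    rcases hM0 v with h | h
    · rw [h, zero_div, mul_zero]
    · have : (M : ℂ) ≠ 0 := by exact_mod_cast h.ne'
      field_simp
  obtain ⟨E, hE, hE'⟩ := hℓ₀ ℓ ((le_max_left _ _).trans hℓ1) K hK J q χ t hsp
    (fun j => by rw [hRℓ]; exact hfam.le j) (fun j => by rw [hRℓ]; exact hfam.abs_le j) b hb1
  refine ⟨E, ?_, ?_⟩
  · have e : Real.exp (δ * ℓ) = R ^ δ := by
      rw [Real.rpow_def_of_pos hR0]
      congr 1
      ring
    rwa [e] at hE
  · intro j hj T hT1 hT2
    have hT0 : 0 < T := lt_of_lt_of_le (Real.rpow_pos_of_pos hℓpos _) hT1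
    have h1 : 400 / δ * Real.log ℓ ≤ Real.log T := by
      have := Real.log_le_log (Real.rpow_pos_of_pos hℓpos _) hT1
      rwa [Real.log_rpow hℓpos] at this
    have h2 : Real.log T ≤ Real.exp (δ * ℓ / 16) := by
      have h3 := Real.log_le_log hT0 hT2
      rw [Real.log_exp, Real.rpow_def_of_pos hR0] at h3
      refine h3.trans (le_of_eq ?_)
      congr 1
      ring
    have h3 := hE' j hj T hT0 h1 h2
    have e1 : Real.exp (-(δ / 1600 * Real.log T)) = T ^ (-(δ / 1600)) := by
      rw [Real.rpow_def_of_pos hT0]
      congr 1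
      ring
    have e2 : Real.exp (-(δ * ℓ / 64)) = R ^ (-(δ / 64)) := by
      rw [Real.rpow_def_of_pos hR0]
      congr 1
      ring
    rw [e1, e2] at h3
    have h4 : twistedSum a (χ j) (t j) T = (M : ℂ) * Pool.Agent.H439.TH.SA b (χ j) (t j) T := by
      have hab' : a = fun v => (M : ℂ) * b v := funext hab
      rw [← Pool.Agent.H439.TH.SA_mul, ← hab']
      rfl
    rw [h4, norm_mul, Complex.norm_real, Real.norm_of_nonneg hMnn, mul_assoc]
    exact mul_le_mul_of_nonneg_left h3 hMnn

end Pool.Agent.Results.MP_1a0ddd_nt.TwistsAllScales
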